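import Pool.Agent.helper70.FI4.SpecK
set_option autoImplicit false
namespace Pool.Agent.FI4
open Pool.Agent.helper58.DC Pool.Agent.DI Pool.Agent.GR Pool.Agent.OB Pool.Agent.DR Pool.Agent.FI Pool.Agent.FI3

theorem KMG : KMG_stmt := by
  classical
  intro G Gb _ _ _ _ π hπ g
  let _ : Fintype G := Fintype.ofFinite G
  let _ : Fintype Gb := Fintype.ofFinite Gb
  let K : Finset G := Finset.univ.filter fun x => x ∈ conjugatesOf g
  have hK : ∀ x, x ∈ K ↔ IsConj g x := fun x => by simp only [K, Finset.mem_filter, Finset.mem_univ, true_and]; exact Iff.rfl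
  have Kc : ∀ a x : G, x ∈ K → a * x * a⁻¹ ∈ K := by
    intro a x hx
    exact (hK _).2 (((hK x).1 hx).trans (isConj_iff.2 ⟨a, rfl⟩))
  have hgK : g ∈ K := (hK g).2 (IsConj.refl g)
  have hfib : ∀ y ∈ conjugatesOf (π g),
      (K.filter fun x => π x = y).card = (K.filter fun x => π x = π g).card := by
    intro y hy
    obtain ⟨c, hc⟩ := isConj_iff.1 (show IsConj (π g) y from hy)
    obtain ⟨a, rfl⟩ := hπ c
    refine Finset.card_nbij' (fun x => a⁻¹ * x * a) (fun x => a * x * a⁻¹) ?_ ?_ ?_ ?_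
    · intro x hx
      have hx' := Finset.mem_filter.1 (Finset.mem_coe.1 hx)
      refine Finset.mem_coe.2 (Finset.mem_filter.2 ⟨?_, ?_⟩)
      · have h1 := Kc a⁻¹ x hx'.1
        rwa [inv_inv] at h1
      · show π (a⁻¹ * x * a) = π g
        rw [map_mul, map_mul, map_inv, hx'.2, ← hc]
        group
    · intro x hx
      have hx' := Finset.mem_filter.1 (Finset.mem_coe.1 hx)
      refine Finset.mem_coe.2 (Finset.mem_filter.2 ⟨Kc a x hx'.1, ?_⟩)
      show π (a * x * a⁻¹) = y
      rw [map_mul, map_mul, map_inv, hx'.2, hc]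
    · intro x _
      show a * (a⁻¹ * x * a) * a⁻¹ = x
      group
    · intro x _
      show a⁻¹ * (a * x * a⁻¹) * a = x
      group
  have hmaps : ∀ x ∈ K, π x ∈ Finset.univ.filter fun y => y ∈ conjugatesOf (π g) := by
    intro x hx
    obtain ⟨l, hl⟩ := isConj_iff.1 ((hK x).1 hx)
    refine Finset.mem_filter.2 ⟨Finset.mem_univ _, ?_⟩
    show IsConj (π g) (π x)
    rw [← hl]
    exact isConj_iff.2 ⟨π l, by rw [map_mul, map_mul, map_inv]⟩
  refine ⟨(K.filter fun x => π x = π g).card, ?_, ?_⟩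
  · exact Finset.card_pos.2 ⟨g, Finset.mem_filter.2 ⟨hgK, rfl⟩⟩
  · intro f
    have e1 : ∑ᶠ x ∈ conjugatesOf g, f (π x) = ∑ x ∈ K, f (π x) := by
      rw [finsum_mem_def, finsum_eq_sum_of_fintype, Finset.sum_filter]
      refine Finset.sum_congr rfl fun y _ => ?_
      rw [Set.indicator_apply]
    have e2 : ∑ᶠ y ∈ conjugatesOf (π g), f y = ∑ y ∈ Finset.univ.filter (fun y => y ∈ conjugatesOf (π g)), f y := by
      rw [finsum_mem_def, finsum_eq_sum_of_fintype, Finset.sum_filter]
      refine Finset.sum_congr rfl fun y _ => ?_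
      rw [Set.indicator_apply]
    unfold omega
    have e3 : (fun x => f (π x)) 1 = f 1 := by
      show f (π 1) = f 1
      rw [map_one]
    rw [e1, e2, ← Finset.sum_fiberwise_of_maps_to hmaps, e3, mul_div_assoc', Finset.mul_sum]
    congr 1
    refine Finset.sum_congr rfl fun y hy => ?_
    rw [← hfib y (Finset.mem_filter.1 hy).2, Finset.card_eq_sum_ones, Nat.cast_sum, Finset.sum_mul]
    refine Finset.sum_congr rfl fun x hx => ?_
    rw [(Finset.mem_filter.1 hx).2, Nat.cast_one, one_mul]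

end Pool.Agent.FI4
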